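import Mathlib
import Pool.Agent.N266.TI.Stm

/-!
# Project TI, leaf POS: positive capacity (helper628)
-/

set_option autoImplicit false

namespace Pool.Agent.N628.TI

open MeasureTheory Metric Set
open Pool.Agent.N266.TI
open scoped ENNReal NNReal

theorem gr_cont {n : ℕ} {φ : E n → ℝ} (hφ : ContDiff ℝ 1 φ) : Continuous (gr φ) := by
  refine (PiLp.continuous_toLp 2 _).comp (continuous_pi fun i => ?_)
  exact (hφ.continuous_fderiv one_ne_zero).clm_apply continuous_const

theorem gr_supp {n : ℕ} {φ : E n → ℝ} (hφ : HasCompactSupport φ) : HasCompactSupport (gr φ) := by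
  have h : gr φ = (fun L : E n →L[ℝ] ℝ => (WithLp.toLp 2 (fun i => L (e i)) : E n)) ∘
    fderiv ℝ φ := rfl
  rw [h]
  refine (hφ.fderiv ℝ).comp_left ?_
  ext i
  simp

theorem fderiv_le {n : ℕ} (φ : E n → ℝ) (x : E n) : ‖fderiv ℝ φ x‖ ≤ ‖gr φ x‖ := by
  refine ContinuousLinearMap.opNorm_le_bound _ (norm_nonneg _) fun y => ?_
  have h : fderiv ℝ φ x y = inner ℝ (gr φ x) y := by
    conv_lhs => rw [← (EuclideanSpace.basisFun (Fin n) ℝ).sum_repr y]
    rw [map_sum, PiLp.inner_apply]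
    refine Finset.sum_congr rfl fun i _ => ?_
    rw [map_smul, EuclideanSpace.basisFun_apply, EuclideanSpace.basisFun_repr]
    simp [gr]
  rw [h]
  exact norm_inner_le_norm _ _

theorem exists_adm {n : ℕ} (K : Set (E n)) (hK : IsCompact K) : ∃ φ : E n → ℝ, AdmF K φ := by
  obtain ⟨R, hR⟩ := hK.isBounded.subset_closedBall (0 : E n)
  let f : ContDiffBump (0 : E n) := ⟨|R| + 1, |R| + 2, by positivity, by linarith⟩
  refine ⟨f, f.contDiff, f.hasCompactSupport, fun x hx => ?_⟩
  have : f x = 1 := f.one_of_mem_closedBall (by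
    have h1 := hR hx
    rw [mem_closedBall] at h1 ⊢
    exact h1.trans ((le_abs_self R).trans (by show |R| ≤ |R| + 1; linarith)))
  exact this.ge

theorem pos : POS := by
  intro n hn K hK hne
  obtain ⟨x₀, hx₀⟩ := hne
  obtain ⟨r, hr, hball⟩ := Metric.isOpen_iff.1 isOpen_interior x₀ hx₀
  have hballK : ball x₀ r ⊆ K := hball.trans interior_subset
  have hn0 : (0 : ℝ) < n := by positivity
  have hn3 : (3 : ℝ) ≤ n := by exact_mod_cast hn
  have hq : (0 : ℝ) < 1 / 2 - (n : ℝ)⁻¹ := by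
    have : (n : ℝ)⁻¹ ≤ 3⁻¹ := inv_anti₀ (by norm_num) hn3
    linarith
  set p' : ℝ≥0 := Real.toNNReal (1 / 2 - (n : ℝ)⁻¹)⁻¹ with hp'
  have hp'v : (p' : ℝ) = (1 / 2 - (n : ℝ)⁻¹)⁻¹ := Real.coe_toNNReal _ (by positivity)
  have hp'0 : p' ≠ 0 := by
    rw [hp', Ne, Real.toNNReal_eq_zero, not_le]
    positivity
  set C : ℝ≥0 := SNormLESNormFDerivOfEqConst ℝ (volume : Measure (E n)) 2 with hC
  have hfr : Module.finrank ℝ (E n) = n := finrank_euclideanSpace_fin
  set a : ℝ≥0∞ := volume (ball x₀ r) ^ (1 / (p' : ℝ≥0∞).toReal) with ha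
  have hvol0 : volume (ball x₀ r) ≠ 0 := (measure_ball_pos _ _ hr).ne'
  have hvol1 : volume (ball x₀ r) ≠ ∞ := measure_ball_lt_top.ne
  have ha0 : a ≠ 0 := by
    rw [ha]
    simp only [ENNReal.coe_toReal]
    exact (ENNReal.rpow_pos (pos_iff_ne_zero.2 hvol0) hvol1).ne'
  have ha1 : a ≠ ∞ := ENNReal.rpow_ne_top_of_nonneg (by positivity) hvol1
  have har : 0 < a.toReal := ENNReal.toReal_pos ha0 ha1
  -- the estimate
  have key : ∀ φ : E n → ℝ, AdmF K φ → a.toReal ^ 2 / ((C : ℝ) ^ 2 + 1) ≤ En φ := by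
    intro φ ⟨h1, h2, h3⟩
    have s1 : eLpNorm φ p' volume ≤ C * eLpNorm (fderiv ℝ φ) 2 volume := by
      have := eLpNorm_le_eLpNorm_fderiv_of_eq (μ := (volume : Measure (E n))) h1 h2
        (p := 2) (p' := p') (by norm_num) (by rw [hfr]; omega) (by
          rw [hp'v, inv_inv, hfr]
          norm_num)
      exact this
    have s2 : a ≤ eLpNorm φ p' volume := by
      have t1 : eLpNorm ((ball x₀ r).indicator (fun _ => (1 : ℝ))) p' volume = a := by
        rw [eLpNorm_indicator_const measurableSet_ball (by exact_mod_cast hp'0)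
          ENNReal.coe_ne_top]
        rw [ha, enorm_one, one_mul]
      rw [← t1]
      refine eLpNorm_mono fun x => ?_
      by_cases hx : x ∈ ball x₀ r
      · rw [indicator_of_mem hx]
        have := h3 x (hballK hx)
        rw [Real.norm_eq_abs, Real.norm_eq_abs, abs_one, abs_of_nonneg (by linarith)]
        exact this
      · rw [indicator_of_notMem hx, norm_zero]
        exact norm_nonneg _
    have s3 : eLpNorm (fderiv ℝ φ) 2 volume ≤ eLpNorm (gr φ) 2 volume :=
      eLpNorm_mono fun x => fderiv_le φ x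
    have hmem : MemLp (gr φ) 2 volume := (gr_cont h1).memLp_of_hasCompactSupport (gr_supp h2)
    have s4 : eLpNorm (gr φ) 2 volume = ENNReal.ofReal (√(En φ)) := by
      rw [hmem.eLpNorm_eq_integral_rpow_norm two_ne_zero ENNReal.ofNat_ne_top]
      congr 1
      rw [ENNReal.toReal_ofNat, Real.sqrt_eq_rpow]
      unfold En
      norm_num
    have s5 : a ≤ C * ENNReal.ofReal (√(En φ)) := by
      rw [← s4]
      exact s2.trans (s1.trans (mul_le_mul_right s3 _))
    have s6 : a.toReal ≤ C * √(En φ) := by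
      have := ENNReal.toReal_mono (ENNReal.mul_ne_top ENNReal.coe_ne_top ENNReal.ofReal_ne_top) s5
      rw [ENNReal.toReal_mul, ENNReal.coe_toReal, ENNReal.toReal_ofReal (Real.sqrt_nonneg _)] at this
      exact this
    have hE : 0 ≤ En φ := integral_nonneg fun x => by positivity
    have s7 : a.toReal ^ 2 ≤ (C : ℝ) ^ 2 * En φ := by
      have := pow_le_pow_left₀ har.le s6 2
      rwa [mul_pow, Real.sq_sqrt hE] at this
    rw [div_le_iff₀ (by positivity)]
    nlinarith
  obtain ⟨φ₀, hφ₀⟩ := exists_adm K hK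
  have : a.toReal ^ 2 / ((C : ℝ) ^ 2 + 1) ≤ cap K := by
    refine le_csInf ⟨En φ₀, φ₀, hφ₀, rfl⟩ ?_
    rintro _ ⟨φ, hφ, rfl⟩
    exact key φ hφ
  exact lt_of_lt_of_le (by positivity) this

end Pool.Agent.N628.TI
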